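import Mathlib
import Pool.Agent.N852.EL.Stm

/-!
# EL/A: the main theorem of elimination theory, with uniform degrees
-/

set_option autoImplicit false

namespace Pool.Agent.N20.EL

open MvPolynomial Pool.Agent.N852.EL Matrix Module

section Fld

variable {T ι : Type} {κ : T → Type} [∀ t, Fintype (κ t)]

/-- the block degree -/
def bd (β : (Σ t, κ t) →₀ ℕ) (t : T) : ℕ := ∑ j, β ⟨t, j⟩

theorem bd_add (β γ : (Σ t, κ t) →₀ ℕ) (t : T) : bd (β + γ) t = bd β t + bd γ t := by
  unfold bd
  rw [← Finset.sum_add_distrib]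
  rfl

/-- the monomials of block degrees `d` -/
def Row (κ : T → Type) [∀ t, Fintype (κ t)] (d : ℕ) : Type :=
  {β : (Σ t, κ t) →₀ ℕ // ∀ t, bd β t = d}

theorem row_finite [Fintype T] (d : ℕ) : Finite (Row κ d) := by
  classical
  apply Finite.of_injective (β := (Σ t, κ t) → Fin (d + 1)) (fun β q => ⟨β.1 q, by
    have h1 := β.2 q.1
    have h2 : β.1 q ≤ bd β.1 q.1 := by
      unfold bd
      exact Finset.single_le_sum (f := fun j => β.1 ⟨q.1, j⟩) (fun _ _ => Nat.zero_le _)
        (Finset.mem_univ q.2)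
    omega⟩)
  intro β γ h
  apply Subtype.ext
  ext q
  have := congrFun h q
  simpa using this

noncomputable instance [Fintype T] (d : ℕ) : Fintype (Row κ d) :=
  @Fintype.ofFinite _ (row_finite d)

noncomputable instance (d : ℕ) : DecidableEq (Row κ d) := Classical.decEq _

/-- the columns -/
def Col (κ : T → Type) [∀ t, Fintype (κ t)] (δ : ι → T → ℕ) (d : ℕ) : Type :=
  {p : ι × ((Σ t, κ t) →₀ ℕ) // ∀ t, bd p.2 t + δ p.1 t = d}

/-- the matrices -/
noncomputable def MM {R : Type*} [CommRing R] (f : ι → MvPolynomial (Σ t, κ t) R) (δ : ι → T → ℕ)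
    (d : ℕ) (e : Row κ d → Col κ δ d) : Matrix (Row κ d) (Row κ d) R :=
  Matrix.of fun β β' => coeff β.1 (monomial (e β').1.2 1 * f (e β').1.1)

theorem coeff_col {R : Type*} [CommRing R] {f : ι → MvPolynomial (Σ t, κ t) R} {δ : ι → T → ℕ}
    (hf : ∀ l, MH (f l) (δ l)) {d : ℕ} (c : Col κ δ d) {β : (Σ t, κ t) →₀ ℕ}
    (h : coeff β (monomial c.1.2 1 * f c.1.1) ≠ 0) (t : T) : bd β t = d := by
  rw [coeff_monomial_mul'] at h
  by_cases h1 : c.1.2 ≤ β
  · rw [if_pos h1, one_mul] at h
    have h2 := hf c.1.1 _ (MvPolynomial.mem_support_iff.2 h) t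
    have h3 : bd (β - c.1.2) t = δ c.1.1 t := h2
    have h4 := bd_add c.1.2 (β - c.1.2) t
    rw [add_tsub_cancel_of_le h1, h3] at h4
    rw [h4]
    exact c.2 t
  · rw [if_neg h1] at h
    exact absurd rfl h

/-- a nonzero determinant -/
theorem mon_of_det [Fintype T] {f : ι → MvPolynomial (Σ t, κ t) ℂ} {δ : ι → T → ℕ}
    (hf : ∀ l, MH (f l) (δ l)) {d : ℕ} (e : Row κ d → Col κ δ d) (h : (MM f δ d e).det ≠ 0) :
    Mon f d := by
  classical
  intro β hβ
  set β₀ : Row κ d := ⟨β, hβ⟩ with hβ₀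
  set x : Row κ d → ℂ := (MM f δ d e)⁻¹ *ᵥ (Pi.single β₀ 1) with hx
  have h1 : MM f δ d e *ᵥ x = Pi.single β₀ 1 := by
    rw [hx, Matrix.mulVec_mulVec, Matrix.mul_nonsing_inv _ (isUnit_iff_ne_zero.2 h),
      Matrix.one_mulVec]
  have h2 : monomial β (1 : ℂ) = ∑ β', C (x β') * (monomial (e β').1.2 1 * f (e β').1.1) := by
    ext γ
    rw [coeff_sum]
    by_cases h3 : ∀ t, bd γ t = d
    · have h4 := congrFun h1 (⟨γ, h3⟩ : Row κ d)
      have h5 : (MM f δ d e *ᵥ x) (⟨γ, h3⟩ : Row κ d) =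
          ∑ β', coeff γ (monomial (e β').1.2 1 * f (e β').1.1) * x β' := rfl
      rw [h5] at h4
      rw [coeff_monomial]
      have h6' : ∀ γ' : Row κ d, (Pi.single β₀ (1 : ℂ) : Row κ d → ℂ) γ' =
          if β = γ'.1 then 1 else 0 := by
        intro γ'
        rw [Pi.single_apply]
        by_cases h7 : β = γ'.1
        · have h8 : γ' = β₀ := Subtype.ext h7.symm
          rw [if_pos h8, if_pos h7]
        · rw [if_neg h7, if_neg]
          intro h8
          exact h7 (congrArg Subtype.val h8).symm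
      have h6 := h6' (⟨γ, h3⟩ : Row κ d)
      rw [h6] at h4
      rw [← h4]
      refine Finset.sum_congr rfl fun β' _ => ?_
      rw [coeff_C_mul, mul_comm]
    · rw [coeff_monomial, if_neg (fun h7 => h3 (by rw [← h7]; exact hβ))]
      symm
      apply Finset.sum_eq_zero
      intro β' _
      rw [coeff_C_mul]
      by_contra h8
      exact h3 (coeff_col hf (e β') (right_ne_zero_of_mul h8))
  rw [h2]
  refine Ideal.sum_mem _ fun β' _ => ?_
  exact Ideal.mul_mem_left _ _ (Ideal.mul_mem_left _ _ (Ideal.subset_span ⟨_, rfl⟩))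

theorem det_of_mon [Fintype T] [Fintype ι] {f : ι → MvPolynomial (Σ t, κ t) ℂ} {δ : ι → T → ℕ}
    (hf : ∀ l, MH (f l) (δ l)) {d : ℕ} (h : Mon f d) :
    ∃ e : Row κ d → Col κ δ d, (MM f δ d e).det ≠ 0 := by
  classical
  -- the vectors of the columns
  set v : Col κ δ d → (Row κ d → ℂ) := fun c β => coeff β.1 (monomial c.1.2 1 * f c.1.1) with hv
  have hspan : Submodule.span ℂ (Set.range v) = ⊤ := by
    rw [eq_top_iff, ← (Pi.basisFun ℂ (Row κ d)).span_eq, Submodule.span_le]
    rintro _ ⟨β, rfl⟩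
    obtain ⟨c, hc⟩ := (Ideal.mem_span_range_iff_exists_fun).1 (h β.1 β.2)
    -- the sum over the monomials of the coefficients
    have h1 : (Pi.basisFun ℂ (Row κ d) β : Row κ d → ℂ) =
        ∑ l, ∑ γ ∈ (c l).support, if hg : ∀ t, bd γ t + δ l t = d then
          (coeff γ (c l)) • v ⟨(l, γ), hg⟩ else 0 := by
      funext β'
      have h2 := congrArg (coeff β'.1) hc
      rw [coeff_sum, coeff_monomial] at h2
      rw [Pi.basisFun_apply, Pi.single_apply]
      have h3 : (if β' = β then (1 : ℂ) else 0) = if β.1 = β'.1 then 1 else 0 := by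
        by_cases h4 : β' = β
        · rw [if_pos h4, if_pos (by rw [h4])]
        · rw [if_neg h4, if_neg (fun h5 => h4 (Subtype.ext h5.symm))]
      rw [h3, ← h2, Finset.sum_apply]
      refine Finset.sum_congr rfl fun l _ => ?_
      rw [Finset.sum_apply]
      conv_lhs => rw [(c l).as_sum, Finset.sum_mul, coeff_sum]
      refine Finset.sum_congr rfl fun γ _ => ?_
      rw [coeff_monomial_mul']
      by_cases hg : ∀ t, bd γ t + δ l t = d
      · rw [dif_pos hg, Pi.smul_apply, smul_eq_mul]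
        show _ = coeff γ (c l) * coeff β'.1 (monomial γ 1 * f l)
        rw [coeff_monomial_mul']
        by_cases h6 : γ ≤ β'.1
        · rw [if_pos h6, if_pos h6, one_mul]
        · rw [if_neg h6, if_neg h6, mul_zero]
      · rw [dif_neg hg]
        by_cases h6 : γ ≤ β'.1
        · rw [if_pos h6]
          by_contra h7
          apply hg
          intro t
          have h8 : coeff (β'.1 - γ) (f l) ≠ 0 := by
            intro h9
            apply h7
            rw [h9, mul_zero]
            rfl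
          have h9 : bd (β'.1 - γ) t = δ l t := hf l _ (MvPolynomial.mem_support_iff.2 h8) t
          rw [← h9, ← bd_add, add_tsub_cancel_of_le h6]
          exact β'.2 t
        · rw [if_neg h6]
          rfl
    rw [h1]
    refine Submodule.sum_mem _ fun l _ => Submodule.sum_mem _ fun γ _ => ?_
    by_cases hg : ∀ t, bd γ t + δ l t = d
    · rw [dif_pos hg]
      exact Submodule.smul_mem _ _ (Submodule.subset_span ⟨_, rfl⟩)
    · rw [dif_neg hg]
      exact Submodule.zero_mem _
  obtain ⟨K, a, ha, hsp, hli⟩ := exists_linearIndependent' ℂ v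
  have hb := Basis.mk hli (by rw [hsp, hspan])
  have hfin : Fintype K := FiniteDimensional.fintypeBasisIndex hb
  have hcard : Fintype.card (Row κ d) = Fintype.card K := by
    rw [← Module.finrank_eq_card_basis hb, Module.finrank_fintype_fun_eq_card]
  obtain ⟨g⟩ := Fintype.card_eq.1 hcard
  refine ⟨fun β => a (g β), ?_⟩
  have h2 : LinearIndependent ℂ (MM f δ d (fun β => a (g β))).col := by
    have h3 := hli.comp g g.injective
    exact h3
  rw [Matrix.linearIndependent_cols_iff_isUnit, Matrix.isUnit_iff_isUnit_det] at h2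
  exact h2.ne_zero

theorem zer_mon [Fintype T] {f : ι → MvPolynomial (Σ t, κ t) ℂ} (hz : Zer f) {d : ℕ} (h : Mon f d) :
    False := by
  classical
  obtain ⟨z, hz1, hz2⟩ := hz
  have h1 : ∀ t, ∃ j, z t j ≠ 0 := fun t => Function.ne_iff.1 (hz1 t)
  choose j hj using h1
  set β : (Σ t, κ t) →₀ ℕ := Finsupp.equivFunOnFinite.symm
    (fun q => if q.2 = j q.1 then d else 0) with hβ
  have hβa : ∀ q, β q = if q.2 = j q.1 then d else 0 := fun q => rfl
  have h2 := h β (by
    intro t
    rw [Finset.sum_congr rfl fun i _ => hβa ⟨t, i⟩]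
    rw [Finset.sum_ite_eq' Finset.univ (j t) (fun _ => d), if_pos (Finset.mem_univ _)])
  have h3 : Ideal.span (Set.range f) ≤ RingHom.ker (eval (fun q : Σ t, κ t => z q.1 q.2)) := by
    rw [Ideal.span_le]
    rintro _ ⟨l, rfl⟩
    exact hz2 l
  have h4 : eval (fun q : Σ t, κ t => z q.1 q.2) (monomial β (1 : ℂ)) = 0 := h3 h2
  rw [eval_monomial, one_mul, Finsupp.prod_fintype _ _ (fun q => pow_zero _),
    Finset.prod_eq_zero_iff] at h4
  obtain ⟨q, _, h5⟩ := h4
  rw [hβa] at h5
  by_cases h6 : q.2 = j q.1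
  · have h8 : z q.1 q.2 = 0 := pow_eq_zero_iff (n := _) (by
      intro h9
      rw [h9, pow_zero] at h5
      exact one_ne_zero h5) |>.1 h5
    rw [h6] at h8
    exact hj _ h8
  · rw [if_neg h6, pow_zero] at h5
    exact one_ne_zero h5

theorem mon_succ [Fintype T] {f : ι → MvPolynomial (Σ t, κ t) ℂ} {d : ℕ} (h : Mon f d) :
    Mon f (d + 1) := by
  classical
  intro β hβ
  have h1 : ∀ t, ∃ j, β ⟨t, j⟩ ≠ 0 := by
    intro t
    by_contra hcon
    push Not at hcon
    have := hβ t
    rw [Finset.sum_eq_zero (fun j _ => hcon j)] at this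
    omega
  choose j hj using h1
  set γ : (Σ t, κ t) →₀ ℕ := Finsupp.equivFunOnFinite.symm
    (fun q => if q.2 = j q.1 then 1 else 0) with hγ
  have hγa : ∀ q, γ q = if q.2 = j q.1 then 1 else 0 := fun q => rfl
  have h2 : γ ≤ β := by
    intro q
    rw [hγa]
    by_cases h3 : q.2 = j q.1
    · rw [if_pos h3]
      have h4 := hj q.1
      rw [← h3] at h4
      exact Nat.one_le_iff_ne_zero.2 h4
    · rw [if_neg h3]
      exact Nat.zero_le _
  have h3 : ∀ t, bd γ t = 1 := by
    intro t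
    unfold bd
    rw [Finset.sum_congr rfl fun i _ => hγa ⟨t, i⟩]
    rw [Finset.sum_ite_eq' Finset.univ (j t) (fun _ => 1), if_pos (Finset.mem_univ _)]
  have h4 : β = γ + (β - γ) := (add_tsub_cancel_of_le h2).symm
  rw [h4, ← one_mul (1 : ℂ), ← monomial_mul]
  refine Ideal.mul_mem_left _ _ (h _ fun t => ?_)
  have h5 := bd_add γ (β - γ) t
  rw [← h4, h3] at h5
  have h6 : bd β t = d + 1 := hβ t
  have h7 : bd (β - γ) t = d := by omega
  exact h7

theorem mon_mono [Fintype T] {f : ι → MvPolynomial (Σ t, κ t) ℂ} {d d' : ℕ} (h : Mon f d)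
    (hd : d ≤ d') : Mon f d' := by
  induction d', hd using Nat.le_induction with
  | base => exact h
  | succ n _ ih => exact mon_succ ih

theorem mon_of_not_zer [Fintype T] {f : ι → MvPolynomial (Σ t, κ t) ℂ} (h : ¬ Zer f) :
    ∃ d, Mon f d := by
  classical
  -- the powers
  have h1 : ∀ φ : (∀ t, κ t), ∃ n : ℕ,
      (∏ t, (X ⟨t, φ t⟩ : MvPolynomial (Σ t, κ t) ℂ)) ^ n ∈ Ideal.span (Set.range f) := by
    intro φ
    have h2 : (∏ t, (X ⟨t, φ t⟩ : MvPolynomial (Σ t, κ t) ℂ)) ∈
        (Ideal.span (Set.range f)).radical := by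
      rw [← MvPolynomial.vanishingIdeal_zeroLocus_eq_radical (K := ℂ), mem_vanishingIdeal_iff]
      intro x hx
      by_contra hcon
      apply h
      rw [map_prod] at hcon
      refine ⟨fun t j => x ⟨t, j⟩, fun t h3 => ?_, fun l => ?_⟩
      · apply hcon
        apply Finset.prod_eq_zero (Finset.mem_univ t)
        rw [aeval_X]
        exact congrFun h3 (φ t)
      · have h4 := hx (f l) (Ideal.subset_span ⟨l, rfl⟩)
        exact h4
    exact h2
  choose n hn using h1
  set N := ∑ φ, n φ with hN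
  set Q := ∑ t, Fintype.card (κ t) with hQ
  refine ⟨N * Q + 1, fun β hβ => ?_⟩
  have h2 : ∀ t, ∃ j, N ≤ β ⟨t, j⟩ := by
    intro t
    by_contra hcon
    push Not at hcon
    have h3 := hβ t
    have h4 : ∑ j, β ⟨t, j⟩ ≤ Fintype.card (κ t) * N := by
      refine (Finset.sum_le_card_nsmul _ _ N fun j _ => (hcon j).le).trans ?_
      rw [Finset.card_univ, smul_eq_mul]
    have h5 : Fintype.card (κ t) ≤ Q :=
      Finset.single_le_sum (f := fun t => Fintype.card (κ t)) (fun _ _ => Nat.zero_le _)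
        (Finset.mem_univ t)
    have h6 : Fintype.card (κ t) * N ≤ N * Q := by
      rw [mul_comm]; exact Nat.mul_le_mul_left _ h5
    omega
  choose φ hφ using h2
  set γ : (Σ t, κ t) →₀ ℕ := Finsupp.equivFunOnFinite.symm
    (fun q => if q.2 = φ q.1 then n φ else 0) with hγ
  have hγa : ∀ q, γ q = if q.2 = φ q.1 then n φ else 0 := fun q => rfl
  have h2 : γ ≤ β := by
    intro q
    rw [hγa]
    by_cases h3 : q.2 = φ q.1
    · rw [if_pos h3]
      have h4 := hφ q.1
      rw [← h3] at h4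
      refine le_trans ?_ h4
      exact Finset.single_le_sum (f := n) (fun _ _ => Nat.zero_le _) (Finset.mem_univ φ)
    · rw [if_neg h3]
      exact Nat.zero_le _
  have h3 : monomial γ (1 : ℂ) = (∏ t, (X ⟨t, φ t⟩ : MvPolynomial (Σ t, κ t) ℂ)) ^ n φ := by
    rw [monomial_eq, C_1, one_mul, Finsupp.prod_fintype _ _ (fun q => pow_zero _),
      ← Finset.prod_pow, Fintype.prod_sigma]
    refine Finset.prod_congr rfl fun t _ => ?_
    rw [Finset.prod_eq_single (φ t)]
    · rw [hγa, if_pos rfl]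
    · intro j _ hj
      rw [hγa, if_neg hj, pow_zero]
    · intro h; exact absurd (Finset.mem_univ _) h
  have h4 : β = (β - γ) + γ := (tsub_add_cancel_of_le h2).symm
  rw [h4, ← one_mul (1 : ℂ), ← monomial_mul, h3]
  exact Ideal.mul_mem_left _ _ (hn φ)

end Fld

section Hom

variable {T : Type} {κ : T → Type} [∀ t, Fintype (κ t)] {R : Type*} [CommRing R]

theorem MH_zero (δ : T → ℕ) : MH (0 : MvPolynomial (Σ t, κ t) R) δ := by
  intro β hβ
  rw [support_zero] at hβ
  exact absurd hβ (Finset.notMem_empty _)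

theorem MH_one : MH (1 : MvPolynomial (Σ t, κ t) R) (fun _ => 0) := by
  classical
  intro β hβ t
  rw [MvPolynomial.mem_support_iff, coeff_one] at hβ
  have h1 : 0 = β := by
    by_contra h
    rw [if_neg h] at hβ
    exact hβ rfl
  rw [← h1]
  exact Finset.sum_eq_zero fun _ _ => rfl

theorem MH_mul {p q : MvPolynomial (Σ t, κ t) R} {δ δ' : T → ℕ} (hp : MH p δ) (hq : MH q δ') :
    MH (p * q) (fun t => δ t + δ' t) := by
  classical
  intro β hβ t
  have h1 := support_mul p q hβ
  rw [Finset.mem_add] at h1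
  obtain ⟨a, ha, b, hb, rfl⟩ := h1
  have h2 := bd_add a b t
  have h3 : bd a t = δ t := hp a ha t
  have h4 : bd b t = δ' t := hq b hb t
  rw [h3, h4] at h2
  exact h2

theorem MH_sum {α : Type*} (s : Finset α) {p : α → MvPolynomial (Σ t, κ t) R} {δ : T → ℕ}
    (hp : ∀ i ∈ s, MH (p i) δ) : MH (∑ i ∈ s, p i) δ := by
  classical
  intro β hβ t
  rw [MvPolynomial.mem_support_iff, coeff_sum] at hβ
  obtain ⟨i, hi, h⟩ := Finset.exists_ne_zero_of_sum_ne_zero hβ
  exact hp i hi β (MvPolynomial.mem_support_iff.2 h) t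

theorem MH_prod {α : Type*} (s : Finset α) {p : α → MvPolynomial (Σ t, κ t) R} {δ : α → T → ℕ}
    (hp : ∀ i ∈ s, MH (p i) (δ i)) : MH (∏ i ∈ s, p i) (fun t => ∑ i ∈ s, δ i t) := by
  classical
  induction s using Finset.induction_on with
  | empty => simpa using MH_one
  | insert a s ha ih =>
    have h1 := MH_mul (hp a (Finset.mem_insert_self _ _))
      (ih fun i hi => hp i (Finset.mem_insert_of_mem hi))
    rw [Finset.prod_insert ha]
    intro β hβ t
    show _ = ∑ i ∈ insert a s, δ i t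
    rw [Finset.sum_insert ha]
    exact h1 β hβ t

theorem MH_neg {p : MvPolynomial (Σ t, κ t) R} {δ : T → ℕ} (hp : MH p δ) : MH (-p) δ := by
  intro β hβ
  rw [support_neg] at hβ
  exact hp β hβ

theorem MH_sign {p : MvPolynomial (Σ t, κ t) R} {δ : T → ℕ} (hp : MH p δ) (u : ℤˣ) :
    MH (u • p) δ := by
  rcases Int.units_eq_one_or u with rfl | rfl
  · rwa [one_smul]
  · rw [Units.neg_smul, one_smul]
    exact MH_neg hp

theorem MH_det {ρ : Type*} [Fintype ρ] [DecidableEq ρ]
    {M : Matrix ρ ρ (MvPolynomial (Σ t, κ t) R)} {δ : ρ → T → ℕ}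
    (hM : ∀ i j, MH (M i j) (δ j)) : MH M.det (fun t => ∑ j, δ j t) := by
  rw [Matrix.det_apply]
  refine MH_sum _ fun σ _ => MH_sign ?_ _
  exact MH_prod _ fun i _ => hM _ _

end Hom

theorem map_MM {T ι : Type} {κ : T → Type} [∀ t, Fintype (κ t)] {R S : Type*} [CommRing R]
    [CommRing S] (φ : R →+* S) (f : ι → MvPolynomial (Σ t, κ t) R) (δ : ι → T → ℕ) (d : ℕ)
    (e : Row κ d → Col κ δ d) : (MM f δ d e).map φ = MM (fun l => MvPolynomial.map φ (f l)) δ d e := by
  ext β β'
  show φ (coeff β.1 (monomial (e β').1.2 1 * f (e β').1.1)) =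
    coeff β.1 (monomial (e β').1.2 1 * MvPolynomial.map φ (f (e β').1.1))
  rw [← coeff_map, map_mul, map_monomial, map_one]

theorem MH_map {T : Type} {κ : T → Type} [∀ t, Fintype (κ t)] {R S : Type*} [CommRing R]
    [CommRing S] (φ : R →+* S) {f : MvPolynomial (Σ t, κ t) R} {δ : T → ℕ} (h : MH f δ) :
    MH (MvPolynomial.map φ f) δ := fun β hβ => h β (support_map_subset _ _ hβ)

theorem elimP : ElimP := by
  classical
  intro V' T ι _ _ _ lam κ _ _ f δ hf
  set W : ℕ → Set (MvPolynomial (Σ v, lam v) ℤ) := fun d =>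
    Set.range fun e : Row κ d → Col κ δ d => (MM f δ d e).det with hW
  set Ω : Set (MvPolynomial (Σ v, lam v) ℤ) := {w | ∃ d, w ∈ W d} with hΩ
  have hfa : ∀ a : (Σ v, lam v) → ℂ, ∀ l, MH (MvPolynomial.map (ea a) (f l)) (δ l) :=
    fun a l => MH_map _ (hf l)
  have hdet : ∀ (a : (Σ v, lam v) → ℂ) (d : ℕ) (e : Row κ d → Col κ δ d), ea a (MM f δ d e).det =
      (MM (fun l => MvPolynomial.map (ea a) (f l)) δ d e).det := by
    intro a d e
    rw [RingHom.map_det, ← map_MM]
    rfl
  -- Noetherian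
  have hfg : (Ideal.span Ω).FG := IsNoetherian.noetherian _
  obtain ⟨s, hs1, hs2⟩ := (Submodule.fg_span_iff_fg_span_finset_subset Ω).1 hfg
  have hs3 : ∀ w : s, ∃ d, w.1 ∈ W d := fun w => hs1 w.2
  choose D hD using hs3
  set d := ∑ w, D w with hd
  refine ⟨Ω, d, ?_, ?_⟩
  · rintro ε hε w ⟨d', e, rfl⟩
    refine ⟨fun t => ∑ β, ε (e β).1.1 t, ?_⟩
    apply MH_det (δ := fun β => ε (e β).1.1)
    intro β β'
    show MH (coeff β.1 (monomial (e β').1.2 1 * f (e β').1.1)) _
    rw [coeff_monomial_mul']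
    by_cases h1 : (e β').1.2 ≤ β.1
    · rw [if_pos h1, one_mul]
      exact hε _ _
    · rw [if_neg h1]
      exact MH_zero _
  · intro a
    have key : ¬ Zer (fun l => MvPolynomial.map (ea a) (f l)) → ∃ w ∈ Ω, ea a w ≠ 0 := by
      intro h
      obtain ⟨d', h1⟩ := mon_of_not_zer h
      obtain ⟨e, he⟩ := det_of_mon (hfa a) h1
      exact ⟨_, ⟨d', e, rfl⟩, by rw [hdet]; exact he⟩
    refine ⟨⟨?_, ?_⟩, ?_⟩
    · rintro hz w ⟨d', e, rfl⟩
      show ea a (MM f δ d' e).det = 0
      rw [hdet]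
      by_contra h1
      exact zer_mon hz (mon_of_det (hfa a) e h1)
    · intro h
      by_contra h1
      obtain ⟨w, hw, hw2⟩ := key h1
      exact hw2 (h w hw)
    · intro h
      obtain ⟨w, hw, hw2⟩ := key h
      have h1 : ∃ w' : s, ea a w'.1 ≠ 0 := by
        by_contra hcon
        push Not at hcon
        have h2 : Ideal.span Ω ≤ RingHom.ker (ea a) := by
          have h3 : Ideal.span Ω = Ideal.span (s : Set _) := hs2
          rw [h3, Ideal.span_le]
          intro w' hw'
          exact hcon ⟨w', hw'⟩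
        exact hw2 (h2 (Ideal.subset_span hw))
      obtain ⟨w', hw'⟩ := h1
      obtain ⟨e, he⟩ := hD w'
      rw [← he] at hw'
      rw [hdet] at hw'
      refine mon_mono (mon_of_det (hfa a) e hw') ?_
      exact Finset.single_le_sum (f := D) (fun _ _ => Nat.zero_le _) (Finset.mem_univ w')

end Pool.Agent.N20.EL
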